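import Mathlib
import Pool.Agent.W207.PR.A0

/-! # Cells -/

namespace W333.PR
open W207.PR

open Classical in
/-- **cells** -/
theorem cell : S_CELL := by
  intro Z m x hm δ hδ k
  set f : ℂ → ℤ := fun s => ⌊x s / δ⌋ with hf
  set I : Finset ℤ := Z.image f with hI
  set n : ℤ → ℝ := fun i => ∑ s ∈ Z with f s = i, m s with hn
  have A : ∀ F : ℤ → ℝ, ∑ s ∈ Z, m s * F (f s) = ∑ i ∈ I, n i * F i := by
    intro F
    rw [← Finset.sum_fiberwise_of_maps_to (s := Z) (t := I) (g := f)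
      (fun s hs => Finset.mem_image_of_mem f hs)]
    refine Finset.sum_congr rfl fun i _ => ?_
    simp only [hn]
    rw [Finset.sum_mul]
    refine Finset.sum_congr rfl fun s hs => ?_
    rw [(Finset.mem_filter.mp hs).2]
  have B : ∀ c : ℤ → ℤ → ℝ, ∑ s ∈ Z, ∑ s' ∈ Z, c (f s) (f s') * (m s * m s') =
      ∑ i ∈ I, ∑ j ∈ I, c i j * (n i * n j) := by
    intro c
    have h1 : ∀ s ∈ Z, ∑ s' ∈ Z, c (f s) (f s') * (m s * m s') =
        m s * (∑ j ∈ I, n j * c (f s) j) := by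
      intro s _
      rw [← A (fun j => c (f s) j), Finset.mul_sum]
      exact Finset.sum_congr rfl fun s' _ => by ring
    rw [Finset.sum_congr rfl h1, A (fun i => ∑ j ∈ I, n j * c i j)]
    refine Finset.sum_congr rfl fun i _ => ?_
    rw [Finset.mul_sum]
    exact Finset.sum_congr rfl fun j _ => by ring
  -- first step
  have h1 : (∑ s ∈ Z, ∑ s' ∈ Z, if |x s - x s'| ≤ k * δ then m s * m s' else 0) ≤
      ∑ s ∈ Z, ∑ s' ∈ Z, (if |f s - f s'| ≤ (k : ℤ) then (1 : ℝ) else 0) * (m s * m s') := by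
    refine Finset.sum_le_sum fun s _ => Finset.sum_le_sum fun s' _ => ?_
    have hp : 0 ≤ m s * m s' := mul_nonneg (hm s) (hm s')
    by_cases h : |x s - x s'| ≤ k * δ
    · have h2 : |f s - f s'| ≤ (k : ℤ) := by
        have e1 : x s / δ - x s' / δ = (x s - x s') / δ := by ring
        have e2 : |x s / δ - x s' / δ| ≤ k := by
          rw [e1, abs_div, abs_of_pos hδ, div_le_iff₀ hδ]
          exact h
        have a1 := Int.floor_le (x s / δ)
        have a2 := Int.lt_floor_add_one (x s / δ)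
        have b1 := Int.floor_le (x s' / δ)
        have b2 := Int.lt_floor_add_one (x s' / δ)
        rw [abs_le] at e2 ⊢
        constructor
        · have : -((k : ℤ) : ℝ) < ((⌊x s / δ⌋ - ⌊x s' / δ⌋ : ℤ) : ℝ) + 1 := by
            push_cast; linarith [e2.1]
          have h3 : -(k : ℤ) < (⌊x s / δ⌋ - ⌊x s' / δ⌋) + 1 := by exact_mod_cast this
          simp only [hf]; omega
        · have : ((⌊x s / δ⌋ - ⌊x s' / δ⌋ : ℤ) : ℝ) < ((k : ℤ) : ℝ) + 1 := by
            push_cast; linarith [e2.2]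
          have h3 : (⌊x s / δ⌋ - ⌊x s' / δ⌋) < (k : ℤ) + 1 := by exact_mod_cast this
          simp only [hf]; omega
      rw [if_pos h, if_pos h2, one_mul]
    · rw [if_neg h]
      split_ifs <;> simp [hp]
  -- third step
  have h3 : ∑ s ∈ Z, ∑ s' ∈ Z, (if f s = f s' then (1 : ℝ) else 0) * (m s * m s') ≤
      ∑ s ∈ Z, ∑ s' ∈ Z, if |x s - x s'| ≤ δ then m s * m s' else 0 := by
    refine Finset.sum_le_sum fun s _ => Finset.sum_le_sum fun s' _ => ?_
    have hp : 0 ≤ m s * m s' := mul_nonneg (hm s) (hm s')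
    by_cases h : f s = f s'
    · have h2 : |x s / δ - x s' / δ| < 1 := Int.abs_sub_lt_one_of_floor_eq_floor h
      have e1 : x s / δ - x s' / δ = (x s - x s') / δ := by ring
      rw [e1, abs_div, abs_of_pos hδ, div_lt_iff₀ hδ, one_mul] at h2
      rw [if_pos h, if_pos h2.le, one_mul]
    · rw [if_neg h, zero_mul]
      split_ifs <;> simp [hp]
  -- second step
  have h2 : ∑ i ∈ I, ∑ j ∈ I, (if |i - j| ≤ (k : ℤ) then (1 : ℝ) else 0) * (n i * n j) ≤
      (2 * k + 1) * ∑ i ∈ I, ∑ j ∈ I, (if i = j then (1 : ℝ) else 0) * (n i * n j) := by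
    have e1 : ∑ i ∈ I, ∑ j ∈ I, (if i = j then (1 : ℝ) else 0) * (n i * n j) =
        ∑ i ∈ I, n i ^ 2 := by
      refine Finset.sum_congr rfl fun i hi => ?_
      rw [Finset.sum_eq_single i]
      · rw [if_pos rfl]; ring
      · intro j _ hj; rw [if_neg (Ne.symm hj), zero_mul]
      · intro h; exact absurd hi h
    have e2 : ∀ i ∈ I, ∑ j ∈ I, (if |i - j| ≤ (k : ℤ) then (1 : ℝ) else 0) ≤ 2 * k + 1 := by
      intro i _
      rw [← Finset.sum_filter, Finset.sum_const, nsmul_eq_mul, mul_one]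
      have hsub : I.filter (fun j => |i - j| ≤ (k : ℤ)) ⊆ Finset.Icc (i - k) (i + k) := by
        intro j hj
        have := (Finset.mem_filter.mp hj).2
        rw [abs_le] at this
        rw [Finset.mem_Icc]; omega
      have hc := Finset.card_le_card hsub
      rw [Int.card_Icc] at hc
      have : (I.filter (fun j => |i - j| ≤ (k : ℤ))).card ≤ 2 * k + 1 := by omega
      exact_mod_cast this
    have e3 : ∑ i ∈ I, ∑ j ∈ I, (if |i - j| ≤ (k : ℤ) then (1 : ℝ) else 0) * (n i * n j) ≤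
        ∑ i ∈ I, ∑ j ∈ I, (if |i - j| ≤ (k : ℤ) then (1 : ℝ) else 0) * ((n i ^ 2 + n j ^ 2) / 2) := by
      refine Finset.sum_le_sum fun i _ => Finset.sum_le_sum fun j _ => ?_
      refine mul_le_mul_of_nonneg_left ?_ (by split_ifs <;> norm_num)
      nlinarith [sq_nonneg (n i - n j)]
    have e4 : ∑ i ∈ I, ∑ j ∈ I, (if |i - j| ≤ (k : ℤ) then (1 : ℝ) else 0) * ((n i ^ 2 + n j ^ 2) / 2)
        = ∑ i ∈ I, (∑ j ∈ I, (if |i - j| ≤ (k : ℤ) then (1 : ℝ) else 0)) * n i ^ 2 := by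
      have e5 : ∑ i ∈ I, ∑ j ∈ I, (if |i - j| ≤ (k : ℤ) then (1 : ℝ) else 0) * (n j ^ 2 / 2) =
          ∑ i ∈ I, ∑ j ∈ I, (if |i - j| ≤ (k : ℤ) then (1 : ℝ) else 0) * (n i ^ 2 / 2) := by
        rw [Finset.sum_comm]
        refine Finset.sum_congr rfl fun i _ => Finset.sum_congr rfl fun j _ => ?_
        rw [abs_sub_comm]
      have e6 : ∀ i ∈ I, ∑ j ∈ I, (if |i - j| ≤ (k : ℤ) then (1 : ℝ) else 0) *
          ((n i ^ 2 + n j ^ 2) / 2) = (∑ j ∈ I, (if |i - j| ≤ (k : ℤ) then (1 : ℝ) else 0) *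
          (n i ^ 2 / 2)) + ∑ j ∈ I, (if |i - j| ≤ (k : ℤ) then (1 : ℝ) else 0) * (n j ^ 2 / 2) := by
        intro i _
        rw [← Finset.sum_add_distrib]
        exact Finset.sum_congr rfl fun j _ => by ring
      rw [Finset.sum_congr rfl e6, Finset.sum_add_distrib, e5, ← Finset.sum_add_distrib]
      refine Finset.sum_congr rfl fun i _ => ?_
      rw [← Finset.sum_mul]; ring
    rw [e1, Finset.mul_sum]
    refine (e3.trans_eq e4).trans (Finset.sum_le_sum fun i hi => ?_)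
    exact mul_le_mul_of_nonneg_right (e2 i hi) (sq_nonneg _)
  calc (∑ s ∈ Z, ∑ s' ∈ Z, if |x s - x s'| ≤ k * δ then m s * m s' else 0)
      ≤ ∑ s ∈ Z, ∑ s' ∈ Z, (if |f s - f s'| ≤ (k : ℤ) then (1 : ℝ) else 0) * (m s * m s') := h1
    _ = ∑ i ∈ I, ∑ j ∈ I, (if |i - j| ≤ (k : ℤ) then (1 : ℝ) else 0) * (n i * n j) :=
        B (fun i j => if |i - j| ≤ (k : ℤ) then (1 : ℝ) else 0)
    _ ≤ (2 * k + 1) * ∑ i ∈ I, ∑ j ∈ I, (if i = j then (1 : ℝ) else 0) * (n i * n j) := h2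
    _ = (2 * k + 1) * ∑ s ∈ Z, ∑ s' ∈ Z, (if f s = f s' then (1 : ℝ) else 0) * (m s * m s') := by
        rw [← B (fun i j => if i = j then (1 : ℝ) else 0)]
    _ ≤ _ := mul_le_mul_of_nonneg_left h3 (by positivity)

end W333.PR
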